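import Pool.Agent.W525.CB.Main

/-!
# MP_99f32e_ag, Q1: the canonical bundle formula fails in every characteristic `p ≥ 3`

Let `p ≥ 3`. In the projective space of dimension `p`, `Z` is the Fermat hypersurface
`∑ x_i ^ (2 p + 1) = 0`, with the points `a(x) = (x_0 ^ 2, ..., x_p ^ 2)`. The variety `X` consists
of the pairs `(x, y)` with `x` in `Z` and `y` a point of the projective space of the vector space
`k^(p+1) / k a(x)` of dimension `p`, such that `∑ x_i y_i ^ p = 0` (this makes sense because
`∑ x_i (y_i + λ x_i ^ 2) ^ p = ∑ x_i y_i ^ p`). Both are smooth, the fibres of `X → Z` are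
hyperplanes with multiplicity `p`, `h_* O_X = O_Z`, and if `H` is the hyperplane section of `Z`
then `K_Z = p H` and `K_X = (p - 1) h^* H = h^* (K_Z - H)`, so that `K_X` is not `ℚ`-linearly
equivalent to `h^* (K_Z + Δ)` for an effective `Δ`.

The definitions are in `Pool.Agent.W525.CB.Defs` and `Pool.Agent.H187R3.Defs`.
-/

/-- For every prime number `p ≥ 3` and every algebraically closed field `k` of characteristic `p`
there is a fibration `h : X → Z` between klt (in fact smooth) projective varieties over `k`, with
`K_X` relatively `ℚ`-trivial over `Z`, such that no effective `ℚ`-divisor `Δ` on `Z` satisfies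
`K_X ∼_ℚ h^* (K_Z + Δ)`. -/
theorem Pool.Agent.Results.MP_99f32e_ag.NoCanonicalBundleFormula.result (p : ℕ) (hp : p.Prime)
    (h3 : 3 ≤ p) (k : Type) [Field k] [IsAlgClosed k] [CharP k p] :
    Pool.Agent.W525.CB.Counterexample k :=
  Pool.Agent.W525.CB.counterexample p hp h3 k
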